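import Pool.Agent.Q255.L2.Stm
import Pool.Agent.Q13.EP.REC

/-! # Project L2 (helper255), job ENG2: assembly of the main theorem -/

set_option autoImplicit false

namespace Pool.Agent.Q299.L2

open Filter Topology MeasureTheory
open Pool.Agent.Q255.L2 Pool.Agent.Q255.IC Pool.Agent.Q255.IR Pool.Agent.Q255.EP
open Pool.Agent.Q13.EP (mem_sm abs_cm t_FULL)

/-- the sum over the square parts -/
noncomputable def vv (X : ℕ) (w : ℕ → ℝ) (s : ℕ) : ℝ :=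
  if s = 0 then 0 else ∑ r ∈ Finset.Icc 1 X, w (r ^ 2 * s)

theorem vv_zero {X : ℕ} {w : ℕ → ℝ} (hw : ∀ m, X < m → w m = 0) {s : ℕ} (hs : X < s) : vv X w s = 0 := by
  unfold vv
  rw [if_neg (by omega)]
  refine Finset.sum_eq_zero fun r hr => hw _ ?_
  have hr1 := (Finset.mem_Icc.1 hr).1
  exact lt_of_lt_of_le hs (Nat.le_mul_of_pos_left s (by positivity))

theorem vv_abs (X : ℕ) (w : ℕ → ℝ) (s : ℕ) : |vv X w s| ≤ ∑ r ∈ Finset.Icc 1 X, |w (r ^ 2 * s)| := by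
  unfold vv
  split_ifs
  · rw [abs_zero]
    exact Finset.sum_nonneg fun _ _ => abs_nonneg _
  · exact Finset.abs_sum_le_sum_abs _ _

theorem full_vv (ω : ℕ → Bool) (X : ℕ) (w : ℕ → ℝ) (hw : ∀ m, X < m → w m = 0) :
    ∑ n ∈ Finset.Icc 1 X, w n * cm ω n = Sq ω (Nat.primeCounting X) X (vv X w) := by
  rw [t_FULL ω X w hw]
  unfold Sq
  rw [Finset.sum_comm]
  refine Finset.sum_congr rfl fun s hs => ?_
  have hs1 := (mem_sm.1 hs).1.1
  unfold vv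
  rw [if_neg (by omega), Finset.sum_mul]

theorem mem_rg {k X b : ℕ} : b ∈ rg k X ↔
    (1 ≤ b ∧ b ≤ X) ∧ Squarefree b ∧ ∀ p ∈ b.primeFactors, pr k ≤ p := by
  unfold rg
  rw [Finset.mem_filter, Finset.mem_Icc]

theorem cop {k X Y b m : ℕ} (hb : b ∈ rg k X) (hm : m ∈ sm k Y) : Nat.Coprime b m := by
  rw [mem_rg] at hb
  rw [mem_sm] at hm
  rw [← Nat.disjoint_primeFactors (by omega) (by omega), Finset.disjoint_left]
  intro p hp hp'
  have h1 := hb.2.2 p hp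
  have h2 := hm.2.2 p hp'
  omega

theorem bm_inj {k X : ℕ} {b m b' m' : ℕ} (hb : b ∈ rg k X) (hm : m ∈ sm k X) (hb' : b' ∈ rg k X)
    (hm' : m' ∈ sm k X) (h : b * m = b' * m') : b = b' ∧ m = m' := by
  have h1 : b ∣ b' := (cop hb hm').dvd_of_dvd_mul_right (Dvd.intro m h)
  have h2 : b' ∣ b := (cop hb' hm).dvd_of_dvd_mul_right (Dvd.intro m' h.symm)
  have h3 : b = b' := Nat.dvd_antisymm h1 h2
  refine ⟨h3, ?_⟩
  subst h3
  exact Nat.eq_of_mul_eq_mul_left (by have := (mem_rg.1 hb).1.1; omega) h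

/-- the sum of the squares over the products is at most the norm -/
theorem sum_le_nn {X k : ℕ} {w : ℕ → ℝ} (hw : ∀ m, X < m → w m = 0) :
    ∑ b ∈ rg k X, ∑ m ∈ sm k X, vv X w (b * m) ^ 2 ≤ nn X w := by
  classical
  set A : ℕ → ℝ := fun s => (∑ r ∈ Finset.Icc 1 X, |w (r ^ 2 * s)|) ^ 2 with hA
  have h0 : ∀ s, vv X w s ^ 2 ≤ A s := by
    intro s
    rw [hA]
    simp only
    rw [← sq_abs]
    exact pow_le_pow_left₀ (abs_nonneg _) (vv_abs X w s) 2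
  have h1 : ∑ b ∈ rg k X, ∑ m ∈ sm k X, vv X w (b * m) ^ 2 =
      ∑ p ∈ (rg k X ×ˢ sm k X).filter (fun p => p.1 * p.2 ≤ X), vv X w (p.1 * p.2) ^ 2 := by
    rw [← Finset.sum_product', Finset.sum_filter]
    refine Finset.sum_congr rfl fun p _ => ?_
    split_ifs with h
    · rfl
    · rw [vv_zero hw (by omega)]
      ring
  rw [h1]
  have hinj : Set.InjOn (fun p : ℕ × ℕ => p.1 * p.2)
      ((rg k X ×ˢ sm k X).filter (fun p => p.1 * p.2 ≤ X) : Finset (ℕ × ℕ)) := by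
    rintro ⟨b, m⟩ hp ⟨b', m'⟩ hq hpq
    simp only [Finset.coe_filter, Finset.mem_product, Set.mem_ofPred_eq] at hp hq hpq
    obtain ⟨e1, e2⟩ := bm_inj hp.1.1 hp.1.2 hq.1.1 hq.1.2 hpq
    rw [e1, e2]
  calc ∑ p ∈ (rg k X ×ˢ sm k X).filter (fun p => p.1 * p.2 ≤ X), vv X w (p.1 * p.2) ^ 2
      ≤ ∑ p ∈ (rg k X ×ˢ sm k X).filter (fun p => p.1 * p.2 ≤ X), A (p.1 * p.2) :=
        Finset.sum_le_sum fun p _ => h0 _
    _ = ∑ s ∈ ((rg k X ×ˢ sm k X).filter (fun p => p.1 * p.2 ≤ X)).image (fun p => p.1 * p.2), A s := by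
        rw [Finset.sum_image hinj]
    _ ≤ ∑ s ∈ (Finset.Icc 1 X).filter Squarefree, A s := by
        refine Finset.sum_le_sum_of_subset_of_nonneg ?_ fun s _ _ => sq_nonneg _
        intro s hs
        obtain ⟨⟨b, m⟩, hp, rfl⟩ := Finset.mem_image.1 hs
        simp only [Finset.mem_filter, Finset.mem_product] at hp
        rw [Finset.mem_filter, Finset.mem_Icc]
        refine ⟨⟨?_, hp.2⟩, ?_⟩
        · have e1 := (mem_rg.1 hp.1.1).1.1
          have e2 := (mem_sm.1 hp.1.2).1.1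
          exact Nat.mul_pos e1 e2
        · exact (Nat.squarefree_mul (cop hp.1.1 hp.1.2)).2
            ⟨(mem_rg.1 hp.1.1).2.1, (mem_sm.1 hp.1.2).2.1⟩
    _ = nn X w := rfl

theorem nn_nonneg (X : ℕ) (w : ℕ → ℝ) : 0 ≤ nn X w := Finset.sum_nonneg fun _ _ => sq_nonneg _

/-- the trivial bound -/
theorem triv (ω : ℕ → Bool) {X : ℕ} {w : ℕ → ℝ} (hw : ∀ m, X < m → w m = 0) :
    |∑ n ∈ Finset.Icc 1 X, w n * cm ω n| ≤ √(X : ℝ) * √(nn X w) := by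
  rw [full_vv ω X w hw]
  unfold Sq
  set a : ℕ → ℝ := fun s => ∑ r ∈ Finset.Icc 1 X, |w (r ^ 2 * s)| with ha
  set S := (Finset.Icc 1 X).filter Squarefree with hS
  have h1 : |∑ m ∈ sm (Nat.primeCounting X) X, vv X w m * cm ω m| ≤ ∑ s ∈ S, a s := by
    refine (Finset.abs_sum_le_sum_abs _ _).trans ?_
    have h2 : ∀ m ∈ sm (Nat.primeCounting X) X, |vv X w m * cm ω m| ≤ a m := by
      intro m _
      rw [abs_mul, abs_cm, mul_one]
      exact vv_abs X w m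
    refine (Finset.sum_le_sum h2).trans ?_
    refine Finset.sum_le_sum_of_subset_of_nonneg ?_ fun s _ _ => Finset.sum_nonneg fun _ _ => abs_nonneg _
    intro m hm
    rw [mem_sm] at hm
    rw [hS, Finset.mem_filter, Finset.mem_Icc]
    exact ⟨hm.1, hm.2.1⟩
  refine h1.trans ?_
  rw [← Real.sqrt_mul (Nat.cast_nonneg X)]
  refine Real.le_sqrt_of_sq_le ?_
  have h2 := sq_sum_le_card_mul_sum_sq (s := S) (f := a)
  refine h2.trans ?_
  have h3 : (S.card : ℝ) ≤ X := by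
    have : S.card ≤ X := by
      refine (Finset.card_filter_le _ _).trans ?_
      rw [Nat.card_Icc]
      omega
    exact_mod_cast this
  exact mul_le_mul_of_nonneg_right h3 (nn_nonneg X w)

open Classical in
/-- the functions `v` -/
noncomputable def VV (W : ℕ → Finset (ℕ → ℝ)) (J : ℕ) : Finset (ℕ → ℝ) := (W J).image (vv (2 ^ J))

theorem one_eps (h1 : S_SMALL) (h2 : S_LARGE) (ν : Measure (ℕ → Bool)) [IsProbabilityMeasure ν] {δ : ℝ}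
    (hδ : 0 ≤ δ) (hδ1 : δ ≤ 1)
    (hD : ∀ ε : ℝ, 0 < ε → ∀ᶠ x : ℕ in atTop, D ν (Nat.primeCounting x) ≤ (x : ℝ) ^ (δ + ε))
    (W : ℕ → Finset (ℕ → ℝ)) (A : ℝ) (hW0 : ∀ J, ∀ w ∈ W J, ∀ m, 2 ^ J < m → w m = 0)
    (hWc : ∀ J, ((W J).card : ℝ) ≤ Real.exp (A * ((J : ℝ) + 1))) {ε : ℝ} (hε : 0 < ε) (hε1 : ε ≤ 1) :
    ∀ᵐ ω ∂ν, ∃ C : ℝ, 0 ≤ C ∧ ∀ J, ∀ w ∈ W J,
        |∑ m ∈ Finset.Icc 1 (2 ^ J), w m * cm ω m| ≤
          C * (2 : ℝ) ^ ((δ + 9 / 2 * ε) * J) * √(nn (2 ^ J) w) := by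
  classical
  have hV0 : ∀ J, ∀ w ∈ VV W J, ∀ m, 2 ^ J < m → w m = 0 := by
    intro J v hv m hm
    unfold VV at hv
    obtain ⟨w, hw, rfl⟩ := Finset.mem_image.1 hv
    exact vv_zero (hW0 J w hw) hm
  have hVc : ∀ J, ((VV W J).card : ℝ) ≤ Real.exp (A * ((J : ℝ) + 1)) := by
    intro J
    refine le_trans ?_ (hWc J)
    unfold VV
    exact_mod_cast Finset.card_image_le
  filter_upwards [h1 ν δ hδ hD (VV W) A hVc ε hε, h2 ν δ hδ hδ1 hD (VV W) A hV0 hVc ε hε hε1] with ω hω1 hω2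
  obtain ⟨J1, hJ1⟩ := eventually_atTop.1 (hω1.and hω2)
  refine ⟨(2 : ℝ) ^ J1, by positivity, fun J w hw => ?_⟩
  have hg0 : 0 ≤ (δ + 9 / 2 * ε) * (J : ℝ) := by positivity
  have hg1 : (1 : ℝ) ≤ (2 : ℝ) ^ ((δ + 9 / 2 * ε) * (J : ℝ)) := Real.one_le_rpow (by norm_num) hg0
  have hJ1' : (1 : ℝ) ≤ (2 : ℝ) ^ J1 := one_le_pow₀ (by norm_num)
  have hs0 : 0 ≤ √(nn (2 ^ J) w) := Real.sqrt_nonneg _
  rcases Nat.lt_or_ge J J1 with h | h
  · refine (triv ω (hW0 J w hw)).trans ?_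
    refine mul_le_mul_of_nonneg_right ?_ hs0
    have e1 : √(((2 ^ J : ℕ)) : ℝ) ≤ (2 : ℝ) ^ J1 := by
      rw [Real.sqrt_le_left (by positivity)]
      push_cast
      calc (2 : ℝ) ^ J ≤ (2 : ℝ) ^ J1 := pow_le_pow_right₀ (by norm_num) h.le
        _ ≤ ((2 : ℝ) ^ J1) ^ 2 := by nlinarith
    nlinarith
  · obtain ⟨g1, g2⟩ := hJ1 J h
    have hv : vv (2 ^ J) w ∈ VV W J := by
      unfold VV
      exact Finset.mem_image_of_mem _ hw
    have g1' := g1 _ hv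
    have g2' := g2 _ hv
    have g3 := sum_le_nn (k := Nat.primeCounting (2 ^ ex (δ + ε) J)) (hW0 J w hw)
    rw [full_vv ω (2 ^ J) w (hW0 J w hw)]
    have g4 : Sq ω (Nat.primeCounting (2 ^ J)) (2 ^ J) (vv (2 ^ J) w) ^ 2 ≤
        ((2 : ℝ) ^ ((δ + 9 / 2 * ε) * (J : ℝ)) * √(nn (2 ^ J) w)) ^ 2 := by
      have e1 : ((2 : ℝ) ^ ((δ + 9 / 2 * ε) * (J : ℝ)) * √(nn (2 ^ J) w)) ^ 2 =
          (2 : ℝ) ^ ((2 * δ + 8 * ε) * (J : ℝ)) * ((2 : ℝ) ^ (ε * (J : ℝ)) * nn (2 ^ J) w) := by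
        rw [mul_pow, Real.sq_sqrt (nn_nonneg _ _), ← mul_assoc, ← Real.rpow_add (by norm_num),
          ← Real.rpow_natCast, ← Real.rpow_mul (by norm_num)]
        congr 2
        push_cast
        ring
      rw [e1]
      refine g2'.trans (mul_le_mul_of_nonneg_left ?_ (by positivity))
      exact g1'.trans (mul_le_mul_of_nonneg_left g3 (by positivity))
    have g5 := abs_le_of_sq_le_sq g4 (by positivity)
    have g6 : 0 ≤ (2 : ℝ) ^ ((δ + 9 / 2 * ε) * (J : ℝ)) * √(nn (2 ^ J) w) := by positivity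
    rw [mul_assoc]
    nlinarith

/-- the main theorem -/
theorem eng2 (h1 : S_SMALL) (h2 : S_LARGE) : S_ENG2 := by
  intro ν _ δ hδ hδ1 hD W A hW0 hWc
  have h6 : ∀ᵐ ω ∂ν, ∀ j : ℕ, ∃ C : ℝ, 0 ≤ C ∧ ∀ J, ∀ w ∈ W J,
        |∑ m ∈ Finset.Icc 1 (2 ^ J), w m * cm ω m| ≤
          C * (2 : ℝ) ^ ((δ + 9 / 2 * (1 / ((j : ℝ) + 1))) * J) * √(nn (2 ^ J) w) := by
    rw [ae_all_iff]
    intro j
    refine one_eps h1 h2 ν hδ hδ1 hD W A hW0 hWc (by positivity) ?_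
    rw [div_le_one (by positivity)]
    have : (0 : ℝ) ≤ j := Nat.cast_nonneg j
    linarith
  filter_upwards [h6] with ω hω
  intro ε hε
  obtain ⟨j, hj⟩ := exists_nat_gt (9 / 2 / ε)
  obtain ⟨C, hC0, hC⟩ := hω j
  refine ⟨C, fun J w hw => (hC J w hw).trans ?_⟩
  refine mul_le_mul_of_nonneg_right (mul_le_mul_of_nonneg_left ?_ hC0) (Real.sqrt_nonneg _)
  refine Real.rpow_le_rpow_of_exponent_le (by norm_num) ?_
  refine mul_le_mul_of_nonneg_right ?_ (Nat.cast_nonneg J)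
  rw [div_lt_iff₀ hε] at hj
  have : 9 / 2 * (1 / ((j : ℝ) + 1)) ≤ ε := by
    rw [mul_one_div, div_le_iff₀ (by positivity)]
    nlinarith
  linarith

end Pool.Agent.Q299.L2
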