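import Pool.Agent.Q299.L2.Lg2

/-! # Project L2 (helper255), job LARGE: the large primes -/

set_option autoImplicit false

namespace Pool.Agent.Q299.L2

open Filter Topology MeasureTheory
open Pool.Agent.Q255.L2 Pool.Agent.Q255.IC Pool.Agent.Q255.IR Pool.Agent.Q255.EP
open Pool.Agent.Q190.EP (NN blk NN_mono NN_le LL KK LL_pos KK_pos TT TT_dil TT_zero sum_LK KK_le blk_eq two_rpow_sub)
open scoped ENNReal

theorem ex_low {α : ℝ} (hα : 0 < α) (J : ℕ) : (J : ℝ) + 1 ≤ ((2 : ℝ) ^ ex α J) ^ α := by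
  have h1 : ((Nat.log 2 J : ℝ) + 1) / α ≤ (ex α J : ℝ) := Nat.le_ceil _
  rw [div_le_iff₀ hα] at h1
  have h2 : J + 1 ≤ 2 ^ (Nat.log 2 J + 1) := Nat.lt_pow_succ_log_self (by norm_num) J
  have h3 : (J : ℝ) + 1 ≤ (2 : ℝ) ^ (Nat.log 2 J + 1) := by exact_mod_cast h2
  refine h3.trans ?_
  rw [← Real.rpow_natCast 2 (ex α J), ← Real.rpow_mul (by norm_num), ← Real.rpow_natCast]
  refine Real.rpow_le_rpow_of_exponent_le (by norm_num) ?_
  push_cast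
  exact h1

theorem ex_high {α : ℝ} (hα : 0 < α) : ∀ᶠ J : ℕ in atTop, ex α J ≤ J := by
  have h1 : Tendsto (fun J : ℕ => Real.log (J : ℝ) / (J : ℝ)) atTop (𝓝 0) := by
    have h2 : Tendsto (fun x : ℝ => Real.log x / x) atTop (𝓝 0) := by
      have := Real.isLittleO_log_id_atTop.tendsto_div_nhds_zero
      simpa using this
    exact h2.comp tendsto_natCast_atTop_atTop
  have h3 : Tendsto (fun J : ℕ => (1 : ℝ) / (J : ℝ)) atTop (𝓝 0) := tendsto_one_div_atTop_nhds_zero_nat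
  have h4 : Tendsto (fun J : ℕ => 2 * (Real.log (J : ℝ) / (J : ℝ)) + (1 : ℝ) / (J : ℝ)) atTop (𝓝 0) := by
    have := (h1.const_mul 2).add h3
    simpa using this
  filter_upwards [h4.eventually_le_const hα, eventually_ge_atTop 1] with J hJ hJ1
  have hJ0 : (0 : ℝ) < J := by exact_mod_cast hJ1
  unfold ex
  rw [Nat.ceil_le, div_le_iff₀ hα]
  have e1 : (Nat.log 2 J : ℝ) ≤ 2 * Real.log J := by
    have e2 : 2 ^ Nat.log 2 J ≤ J := Nat.pow_log_le_self 2 (by omega)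
    have e3 : ((2 : ℝ)) ^ Nat.log 2 J ≤ J := by exact_mod_cast e2
    have e4 : (Nat.log 2 J : ℝ) * Real.log 2 ≤ Real.log J := by
      rw [← Real.log_pow]
      exact Real.log_le_log (by positivity) e3
    have e5 := Real.log_two_gt_d9
    have e6 : (0 : ℝ) ≤ (Nat.log 2 J : ℝ) := Nat.cast_nonneg _
    nlinarith
  have e7 : (2 * (Real.log (J : ℝ) / (J : ℝ)) + (1 : ℝ) / (J : ℝ)) * J = 2 * Real.log J + 1 := by
    field_simp
  have e8 := mul_le_mul_of_nonneg_right hJ hJ0.le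
  rw [e7] at e8
  linarith

theorem lt_pr {i k : ℕ} (h : NN i ≤ k) : 2 ^ i < pr k := by
  unfold NN Nat.primeCounting Nat.primeCounting' at h
  exact (Nat.count_le_iff_le_nth Nat.infinite_setOfPred_prime).1 h

theorem kap_le {δ ε : ℝ} (hδ : 0 ≤ δ) (hδ1 : δ ≤ 1) (hε : 0 < ε) (hε1 : ε ≤ 1) :
    ∀ᶠ J : ℕ in atTop, ∀ k, NN (ex (δ + ε) J) ≤ k → KK δ ε J (blk k) ≤ (pr k : ℝ) ^ (2 * δ + 7 * ε) := by
  have h1 := two_rpow_sub hε
  set C' : ℝ := 8 / ((2 : ℝ) ^ ε - 1) * (2 : ℝ) ^ (δ + 2 * ε) with hC'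
  have hC0 : 0 < C' := by positivity
  have hα : 0 < δ + ε := by linarith
  have h2 : Tendsto (fun J : ℕ => ((J : ℝ) + 1) ^ (2 * ε / (δ + ε))) atTop atTop :=
    (tendsto_rpow_atTop (by positivity)).comp (tendsto_natCast_atTop_atTop.atTop_add tendsto_const_nhds)
  filter_upwards [h2.eventually_ge_atTop C'] with J hJ k hk
  have hJ1 : (0 : ℝ) < (J : ℝ) + 1 := by positivity
  have hp0 : (0 : ℝ) < pr k := pr_pos k
  have hp1 : (1 : ℝ) ≤ pr k := by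
    have := (pr_prime k).one_lt.le
    exact_mod_cast this
  have h3 : (J : ℝ) + 1 ≤ (pr k : ℝ) ^ (δ + ε) := by
    refine (ex_low hα J).trans ?_
    refine Real.rpow_le_rpow (by positivity) ?_ hα.le
    exact_mod_cast (lt_pr hk).le
  have h4 : ((J : ℝ) + 1) ^ (1 + ε) ≤ (pr k : ℝ) ^ ((δ + ε) * (1 + ε)) := by
    rw [Real.rpow_mul hp0.le]
    exact Real.rpow_le_rpow hJ1.le h3 (by positivity)
  have h5 : C' ≤ (pr k : ℝ) ^ (2 * ε) := by
    refine hJ.trans ?_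
    have e1 : (pr k : ℝ) ^ (2 * ε) = ((pr k : ℝ) ^ (δ + ε)) ^ (2 * ε / (δ + ε)) := by
      rw [← Real.rpow_mul hp0.le]
      congr 1
      field_simp
    rw [e1]
    exact Real.rpow_le_rpow hJ1.le h3 (by positivity)
  calc KK δ ε J (blk k) ≤ C' * ((J : ℝ) + 1) ^ (1 + ε) * (pr k : ℝ) ^ (δ + 2 * ε) := KK_le hδ hε J k
    _ ≤ (pr k : ℝ) ^ (2 * ε) * (pr k : ℝ) ^ ((δ + ε) * (1 + ε)) * (pr k : ℝ) ^ (δ + 2 * ε) := by
        refine mul_le_mul_of_nonneg_right ?_ (by positivity)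
        exact mul_le_mul h5 h4 (by positivity) (by positivity)
    _ = (pr k : ℝ) ^ (2 * ε + (δ + ε) * (1 + ε) + (δ + 2 * ε)) := by
        rw [← Real.rpow_add hp0, ← Real.rpow_add hp0]
    _ ≤ (pr k : ℝ) ^ (2 * δ + 7 * ε) := by
        refine Real.rpow_le_rpow_of_exponent_le hp1 ?_
        nlinarith

theorem sum_shift {ε : ℝ} (hε : 0 < ε) (δ : ℝ) (J e : ℕ) :
    ∑ i ∈ Finset.range (J - e), 4 * LL δ ε J (e + i) / KK δ ε J (e + i) ≤ 1 := by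
  have h1 := sum_LK hε δ J
  refine le_trans ?_ h1
  have h2 : ∑ i ∈ Finset.range (J - e), 4 * LL δ ε J (e + i) / KK δ ε J (e + i) =
      ∑ i ∈ Finset.Ico e J, 4 * LL δ ε J i / KK δ ε J i := by
    rw [Finset.sum_Ico_eq_sum_range]
  rw [h2]
  refine Finset.sum_le_sum_of_subset_of_nonneg ?_ fun i _ _ => ?_
  · intro i hi
    rw [Finset.mem_Ico] at hi
    exact Finset.mem_range.2 hi.2
  · have := LL_pos δ ε J i
    have := KK_pos hε δ J i
    positivity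

/-- the large primes, almost surely -/
theorem large (h1 : S_AZ2) (h2 : S_DET2) (h3 : S_YB) : S_LARGE := by
  intro ν _ δ hδ hδ1 hD W A hW0 hWc ε hε hε1
  have hα : 0 < δ + ε := by linarith
  filter_upwards [prob2 h1 h3 ν hδ hε hD W A hW0 hWc (ex (δ + ε))] with ω hω
  filter_upwards [hω, ex_high hα, kap_le hδ hδ1 hε hε1, eventually_ge_atTop ⌈1 / ε⌉₊] with J hG he hκ hJ w hw
  set κ : ℕ → ℝ := fun k => KK δ ε J (blk k) with hκd
  have hκ0 : ∀ k, 0 ≤ κ k := fun k => (KK_pos hε δ J (blk k)).le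
  set e := ex (δ + ε) J with hed
  have hwT : w ∈ TT (W J) := ⟨w, hw, 1, le_rfl, by funext m; rw [one_mul]⟩
  have hNJ : NN (e + (J - e)) = NN J := by
    congr 1
    omega
  have a1 := h2 ω (2 ^ J) (NN e) κ (fun i => KK δ ε J (e + i)) (fun i => NN (e + i)) (fun i => LL δ ε J (e + i))
    (J - e) (TT (W J)) Nat.one_le_two_pow rfl (fun a b hab => NN_mono (Nat.add_le_add_left hab e))
    (fun i => KK_pos hε δ J (e + i)) (fun i => (LL_pos δ ε J (e + i)).le)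
    (fun i k hk1 hk2 => by
      rw [hκd]
      simp only
      rw [blk_eq (i := e + i) hk1 hk2]) hκ0 (sum_shift hε δ J e)
    (fun g hg r hr => TT_dil hg hr) (fun g hg m hm => TT_zero (hW0 J) hg hm) hG w hwT (NN J)
    (NN_mono he) (by rw [hNJ])
  have a2 := (h3 ω κ (2 ^ J) (NN e) (NN J - NN e) w Nat.one_le_two_pow hκ0).2.2 (hW0 J w hw)
    (2 * δ + 7 * ε) (by positivity) (fun k hk => hκ k hk)
  have hZ : 0 ≤ Zq ω (NN e) (2 ^ J) w := Finset.sum_nonneg fun _ _ => sq_nonneg _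
  have hJ0 : 1 ≤ ε * (J : ℝ) := by
    have h4 : 1 / ε ≤ (J : ℝ) := (Nat.le_ceil _).trans (by exact_mod_cast hJ)
    rw [div_le_iff₀ hε] at h4
    linarith
  have h4 : (2 : ℝ) ≤ (2 : ℝ) ^ (ε * (J : ℝ)) := by
    calc (2 : ℝ) = (2 : ℝ) ^ (1 : ℝ) := (Real.rpow_one 2).symm
      _ ≤ _ := Real.rpow_le_rpow_of_exponent_le (by norm_num) hJ0
  have h5 : (((2 ^ J : ℕ)) : ℝ) ^ (2 * δ + 7 * ε) = (2 : ℝ) ^ ((2 * δ + 7 * ε) * (J : ℝ)) := by
    push_cast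
    rw [← Real.rpow_natCast, ← Real.rpow_mul (by norm_num)]
    congr 1
    ring
  change Sq ω (NN J) (2 ^ J) w ^ 2 ≤ (2 : ℝ) ^ ((2 * δ + 8 * ε) * J) * Zq ω (NN e) (2 ^ J) w
  calc Sq ω (NN J) (2 ^ J) w ^ 2 ≤ 2 * Yq ω κ (2 ^ J) (NN e) (NN J - NN e) w := a1
    _ ≤ 2 * ((((2 ^ J : ℕ)) : ℝ) ^ (2 * δ + 7 * ε) * Zq ω (NN e) (2 ^ J) w) :=
        mul_le_mul_of_nonneg_left a2 (by norm_num)
    _ ≤ (2 : ℝ) ^ (ε * (J : ℝ)) * ((((2 ^ J : ℕ)) : ℝ) ^ (2 * δ + 7 * ε) * Zq ω (NN e) (2 ^ J) w) :=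
        mul_le_mul_of_nonneg_right h4 (by positivity)
    _ = (2 : ℝ) ^ ((2 * δ + 8 * ε) * J) * Zq ω (NN e) (2 ^ J) w := by
        rw [h5, ← mul_assoc, ← Real.rpow_add (by norm_num)]
        congr 2
        ring

end Pool.Agent.Q299.L2
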