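import Pool.Agent.Q299.L2.GlB

/-! # Project L2 (helper255), job GLA: the moments up to a linear form -/

set_option autoImplicit false

namespace Pool.Agent.Q299.L2

open Finset Pool.Agent.Q255.L2
open Pool.Agent.Y293.SF (mu)
open Pool.Agent.Q152.QT
open Pool.Agent.Q163.GC (W)

theorem sgn_sq {χ : ℕ → ℝ} (hχ : Sgn χ) {n : ℕ} (hn : 1 ≤ n) : χ n ^ 2 = 1 := by
  rcases hχ.2 n hn with h | h <;> rw [h] <;> norm_num

theorem sgn_abs {χ : ℕ → ℝ} (hχ : Sgn χ) {n : ℕ} (hn : 1 ≤ n) : |χ n| = 1 := by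
  rcases hχ.2 n hn with h | h <;> rw [h] <;> norm_num

theorem sgn_one {χ : ℕ → ℝ} (hχ : Sgn χ) : χ 1 = 1 := by
  have h1 := hχ.1 1 1 le_rfl le_rfl
  rw [mul_one] at h1
  rcases hχ.2 1 le_rfl with h | h
  · exact h
  · rw [h] at h1
    norm_num at h1

theorem sgn_prod {χ : ℕ → ℝ} (hχ : Sgn χ) {ι : Type} (s : Finset ι) (t : ι → ℕ) (ht : ∀ i ∈ s, 1 ≤ t i) :
    χ (∏ i ∈ s, t i) = ∏ i ∈ s, χ (t i) := by
  classical
  induction s using Finset.induction_on with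
  | empty => simpa using sgn_one hχ
  | insert i s hi ih =>
    rw [prod_insert hi, prod_insert hi, hχ.1 _ _ (ht i (mem_insert_self i s)) ?_,
      ih fun j hj => ht j (mem_insert_of_mem hj)]
    exact Nat.one_le_iff_ne_zero.2 (prod_ne_zero_iff.2 fun j hj => by
      have := ht j (mem_insert_of_mem hj)
      omega)

theorem W_sum (g χ : ℕ → ℝ) (x h : ℕ) : W (fg g χ) x h = ∑ n ∈ Sf x h, fg g χ n := by
  have h0 : W (fg g χ) x h = ∑ n ∈ Ioc x (x + h), fg g χ n := by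
    unfold W
    have h1 : Ioc x (x + h) = Ico (x + 1) (x + h + 1) := by
      ext n
      simp only [mem_Ioc, mem_Ico]
      omega
    rw [h1, sum_Ico_eq_sum_range]
    have : x + h + 1 - (x + 1) = h := by omega
    rw [this]
    refine sum_congr rfl fun j _ => ?_
    congr 1
    ring
  rw [h0]
  unfold Sf
  rw [sum_filter_of_ne]
  intro n _ hn
  by_contra hc
  apply hn
  unfold fg
  rw [mu_nsqf hc]
  ring

theorem pos_of_mem {k x h : ℕ} {t : Fin k → ℕ} (ht : t ∈ Fintype.piFinset fun _ : Fin k => Sf x h) (i : Fin k) :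
    1 ≤ t i := by
  have := (mem_Sf.1 ((Fintype.mem_piFinset.1 ht) i)).1.1
  omega

theorem W_pow {g χ : ℕ → ℝ} (hχ : Sgn χ) (h x k : ℕ) : W (fg g χ) x h ^ k =
    ∑ t ∈ Fintype.piFinset fun _ : Fin k => Sf x h, at' g t * χ (∏ i, t i) := by
  have h1 : W (fg g χ) x h ^ k = ∏ _i : Fin k, ∑ n ∈ Sf x h, fg g χ n := by
    rw [prod_const, card_univ, Fintype.card_fin, W_sum]
  rw [h1, prod_univ_sum]
  refine sum_congr rfl fun t ht => ?_
  unfold fg at'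
  rw [prod_mul_distrib, sgn_prod hχ univ t fun i _ => pos_of_mem ht i]

theorem chi_square {χ : ℕ → ℝ} (hχ : Sgn χ) {k x h : ℕ} {t : Fin k → ℕ}
    (ht : t ∈ Fintype.piFinset fun _ : Fin k => Sf x h) (hsq : IsSquare (∏ i, t i)) : χ (∏ i, t i) = 1 := by
  have hp := prod_pos' ht
  obtain ⟨r, hr⟩ := hsq
  rw [hr] at hp ⊢
  have hr1 : 1 ≤ r := by
    rcases Nat.eq_zero_or_pos r with h0 | h0
    · rw [h0] at hp
      simp at hp
    · exact h0
  rw [hχ.1 r r hr1 hr1, ← sq, sgn_sq hχ hr1]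

/-- the linear form -/
noncomputable def Lf (g χ : ℕ → ℝ) (k N h : ℕ) : ℝ :=
  ∑ x ∈ Ico N (2 * N), ∑ t ∈ Bt k h x, at' g t * χ (∏ i, t i)

theorem W_mean {g χ : ℕ → ℝ} (hg : ∀ n, g n = 1 ∨ g n = -1) (hχ : Sgn χ) {k h N : ℕ} :
    |∑ x ∈ Ico N (2 * N), W (fg g χ) x h ^ k - ∑ x ∈ Ico N (2 * N), (Ek k (Sf x h) : ℝ)| ≤
      ∑ x ∈ Ico N (2 * N), ((Ot k h x).card : ℝ) + |Lf g χ k N h| := by
  classical
  have e1 : ∀ x ∈ Ico N (2 * N), |W (fg g χ) x h ^ k - (Ek k (Sf x h) : ℝ) -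
      ∑ t ∈ Bt k h x, at' g t * χ (∏ i, t i)| ≤ ((Ot k h x).card : ℝ) := by
    intro x hx
    set A := Fintype.piFinset fun _ : Fin k => Sf x h with hA
    set F : (Fin k → ℕ) → ℝ := fun t => at' g t * χ (∏ i, t i) with hF
    have h1 : W (fg g χ) x h ^ k = ∑ t ∈ A.filter (fun t => IsSquare (∏ i, t i)), F t +
        ∑ t ∈ Bt k h x, F t := by
      rw [W_pow hχ, Bt, sum_filter_add_sum_filter_not]
    have h2 : ∑ t ∈ A.filter (fun t => IsSquare (∏ i, t i)), F t =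
        ∑ t ∈ A.filter (fun t => EvenT t), F t + ∑ t ∈ Ot k h x, F t := by
      rw [← sum_filter_add_sum_filter_not (A.filter (fun t => IsSquare (∏ i, t i))) (fun t => EvenT t),
        filter_filter, filter_filter]
      congr 1
      refine sum_congr ?_ fun _ _ => rfl
      refine filter_congr fun t _ => ?_
      exact ⟨fun h => h.2, fun h => ⟨even_square h, h⟩⟩
    have h3 : ∑ t ∈ A.filter (fun t => EvenT t), F t = (Ek k (Sf x h) : ℝ) := by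
      unfold Ek
      rw [card_eq_sum_ones]
      push_cast
      refine sum_congr rfl fun t ht => ?_
      rw [mem_filter] at ht
      rw [hF]
      simp only
      rw [chi_square hχ ht.1 (even_square ht.2)]
      unfold at'
      rw [even_prod ht.2 (fun n => g n * mu n) ?_]
      · simp
      · intro i
        have h4 := (mem_Sf.1 ((Fintype.mem_piFinset.1 ht.1) i)).2
        rw [mul_pow, mu_sqf h4]
        rcases hg (t i) with h | h <;> rw [h] <;> norm_num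
    have h5 : |∑ t ∈ Ot k h x, F t| ≤ ((Ot k h x).card : ℝ) := by
      refine (abs_sum_le_sum_abs _ _).trans ?_
      have : ∀ t ∈ Ot k h x, |F t| ≤ 1 := by
        intro t ht
        unfold Ot at ht
        rw [hF]
        simp only
        rw [abs_mul, sgn_abs hχ (prod_pos' (mem_filter.1 ht).1), mul_one]
        exact at_abs hg t
      refine (sum_le_sum this).trans ?_
      simp
    rw [h1, h2, h3]
    have : (Ek k (Sf x h) : ℝ) + ∑ t ∈ Ot k h x, F t + ∑ t ∈ Bt k h x, F t - (Ek k (Sf x h) : ℝ) -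
      ∑ t ∈ Bt k h x, F t = ∑ t ∈ Ot k h x, F t := by ring
    rw [this]
    exact h5
  have e2 : ∑ x ∈ Ico N (2 * N), W (fg g χ) x h ^ k - ∑ x ∈ Ico N (2 * N), (Ek k (Sf x h) : ℝ) =
      ∑ x ∈ Ico N (2 * N), (W (fg g χ) x h ^ k - (Ek k (Sf x h) : ℝ) -
        ∑ t ∈ Bt k h x, at' g t * χ (∏ i, t i)) + Lf g χ k N h := by
    unfold Lf
    rw [sum_sub_distrib, sum_sub_distrib]
    ring
  rw [e2]
  refine (abs_add_le _ _).trans ?_
  refine add_le_add_left ?_ _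
  exact (abs_sum_le_sum_abs _ _).trans (sum_le_sum e1)

theorem Lf_eq {g χ : ℕ → ℝ} {k N h X : ℕ} (hh : h ≤ N) (hX : (3 * N) ^ k ≤ X) :
    ∑ n ∈ Icc 1 X, co g k N h n * χ n = Lf g χ k N h / (N * √(h : ℝ) ^ k) := by
  classical
  have e1 : ∀ n ∈ Icc 1 X, co g k N h n * χ n =
      (∑ p ∈ PP k N h, if ∏ i, p.2 i = n then at' g p.2 * χ (∏ i, p.2 i) else 0) / (N * √(h : ℝ) ^ k) := by
    intro n _
    rw [co_eq, div_mul_eq_mul_div]
    congr 1
    rw [sum_filter, sum_mul]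
    refine sum_congr rfl fun p _ => ?_
    split_ifs with h1
    · rw [h1]
    · rw [zero_mul]
  rw [sum_congr rfl e1, ← sum_div]
  congr 1
  rw [sum_comm]
  unfold Lf PP
  rw [sum_sigma]
  refine sum_congr rfl fun x hx => sum_congr rfl fun t ht => ?_
  have ht' := (mem_Bt.1 ht).1
  rw [sum_ite_eq, if_pos]
  exact mem_Icc.2 ⟨prod_pos' ht', (prod_le hx hh ht').trans hX⟩

/-- the moments over the window -/
theorem mom' (k : ℕ) (ε : ℝ) (hε : 0 < ε) :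
    ∃ c C : ℝ, 0 < c ∧ 0 ≤ C ∧ ∀ (g χ : ℕ → ℝ) (N h : ℕ), (∀ n, g n = 1 ∨ g n = -1) → Sgn χ → 1 ≤ N →
      (N : ℝ) ^ ε ≤ h → (h : ℝ) ≤ (N : ℝ) ^ (1 - ε) →
      |(∑ x ∈ Ico N (2 * N), W (fg g χ) x h ^ k) / N - gm k * √(6 / Real.pi ^ 2 * h) ^ k| ≤
        C * √(h : ℝ) ^ k * (N : ℝ) ^ (-c) + |Lf g χ k N h| / N := by
  obtain ⟨c1, C1, hc1, hC1, H1⟩ := ot_le
    (Pool.Agent.Q63.QT.t_Cnt Pool.Agent.Q14.QT.t_Gcd Pool.Agent.Q63.QT.t_Wt) Pool.Agent.Q63.QT.t_Odd k ε hε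
  obtain ⟨C2, hC2, H2⟩ := Pool.Agent.Q63.QT.t_Mean Pool.Agent.Q31.QT.t_Ek k
  refine ⟨min c1 (ε / 2), C1 + C2, lt_min hc1 (by positivity), by positivity,
    fun g χ N h hg hχ hN h1 h2 => ?_⟩
  have hN0 : (0 : ℝ) < N := by exact_mod_cast hN
  have hN1 : (1 : ℝ) ≤ N := by exact_mod_cast hN
  have hh1R : (1 : ℝ) ≤ h := le_trans (Real.one_le_rpow hN1 hε.le) h1
  have hh1 : 1 ≤ h := by exact_mod_cast hh1R
  have hhN : h ≤ N := by
    have : (h : ℝ) ≤ N := h2.trans (by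
      calc (N : ℝ) ^ (1 - ε) ≤ (N : ℝ) ^ (1 : ℝ) := Real.rpow_le_rpow_of_exponent_le hN1 (by linarith)
        _ = N := Real.rpow_one _)
    exact_mod_cast this
  have a1 := W_mean (k := k) (h := h) (N := N) hg hχ
  have a2 := H2 N h hh1 hhN
  have hcard : ((Ico N (2 * N)).card : ℝ) = N := by
    rw [Nat.card_Ico]
    congr 1
    omega
  have a3 : ∑ x ∈ Ico N (2 * N), ((Ot k h x).card : ℝ) ≤ N * (C1 * √(h : ℝ) ^ k * (N : ℝ) ^ (-c1)) := by
    refine (sum_le_sum fun x hx => H1 N h x hN h1 h2 hx).trans ?_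
    rw [sum_const, nsmul_eq_mul, hcard]
  have hs : (0 : ℝ) ≤ √(h : ℝ) ^ k := by positivity
  have b1 : (N : ℝ) ^ (-c1) ≤ (N : ℝ) ^ (-(min c1 (ε / 2))) :=
    Real.rpow_le_rpow_of_exponent_le hN1 (by linarith [min_le_left c1 (ε / 2)])
  have b2 : 1 / √(h : ℝ) ≤ (N : ℝ) ^ (-(min c1 (ε / 2))) := by
    have q1 : (N : ℝ) ^ (ε / 2) ≤ √(h : ℝ) := by
      rw [Real.le_sqrt (by positivity) (by positivity), ← Real.rpow_natCast, ← Real.rpow_mul hN0.le]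
      refine le_trans (le_of_eq ?_) h1
      congr 1
      push_cast
      ring
    calc 1 / √(h : ℝ) ≤ 1 / (N : ℝ) ^ (ε / 2) := one_div_le_one_div_of_le (by positivity) q1
      _ = (N : ℝ) ^ (-(ε / 2)) := by rw [Real.rpow_neg hN0.le, one_div]
      _ ≤ _ := Real.rpow_le_rpow_of_exponent_le hN1 (by linarith [min_le_right c1 (ε / 2)])
  have e1 : (∑ x ∈ Ico N (2 * N), W (fg g χ) x h ^ k) / N - gm k * √(6 / Real.pi ^ 2 * h) ^ k =
      (∑ x ∈ Ico N (2 * N), W (fg g χ) x h ^ k - ∑ x ∈ Ico N (2 * N), (Ek k (Sf x h) : ℝ)) / N +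
      ((∑ x ∈ Ico N (2 * N), (Ek k (Sf x h) : ℝ)) / N - gm k * √(6 / Real.pi ^ 2 * h) ^ k) := by
    ring
  rw [e1]
  refine (abs_add_le _ _).trans ?_
  rw [abs_div, abs_of_pos hN0]
  have c1' : |∑ x ∈ Ico N (2 * N), W (fg g χ) x h ^ k - ∑ x ∈ Ico N (2 * N), (Ek k (Sf x h) : ℝ)| / N ≤
      C1 * √(h : ℝ) ^ k * (N : ℝ) ^ (-(min c1 (ε / 2))) + |Lf g χ k N h| / N := by
    rw [div_le_iff₀ hN0]
    refine a1.trans ?_
    have q1 := mul_le_mul_of_nonneg_left b1 (by positivity : 0 ≤ N * (C1 * √(h : ℝ) ^ k))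
    have q2 : |Lf g χ k N h| / N * N = |Lf g χ k N h| := div_mul_cancel₀ _ hN0.ne'
    rw [add_mul, q2]
    nlinarith
  have c2' : C2 * √(h : ℝ) ^ k / √(h : ℝ) ≤ C2 * √(h : ℝ) ^ k * (N : ℝ) ^ (-(min c1 (ε / 2))) := by
    rw [div_eq_mul_one_div]
    exact mul_le_mul_of_nonneg_left b2 (by positivity)
  have : (C1 + C2) * √(h : ℝ) ^ k * (N : ℝ) ^ (-(min c1 (ε / 2))) =
      C1 * √(h : ℝ) ^ k * (N : ℝ) ^ (-(min c1 (ε / 2))) +
      C2 * √(h : ℝ) ^ k * (N : ℝ) ^ (-(min c1 (ε / 2))) := by ring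
  linarith

/-- the moments up to a linear form -/
theorem t_GLA : S_GLA := by
  intro k ε hε
  obtain ⟨c, C, hc, hC, H⟩ := mom' k ε hε
  refine ⟨c, C, hc, hC, fun g χ N h X hg hχ hN h1 h2 hX => ?_⟩
  have hN0 : (0 : ℝ) < N := by exact_mod_cast hN
  have hN1 : (1 : ℝ) ≤ N := by exact_mod_cast hN
  have hh1R : (1 : ℝ) ≤ h := le_trans (Real.one_le_rpow hN1 hε.le) h1
  have hhN : h ≤ N := by
    have : (h : ℝ) ≤ N := h2.trans (by
      calc (N : ℝ) ^ (1 - ε) ≤ (N : ℝ) ^ (1 : ℝ) := Real.rpow_le_rpow_of_exponent_le hN1 (by linarith)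
        _ = N := Real.rpow_one _)
    exact_mod_cast this
  have hs : 0 < √(h : ℝ) := Real.sqrt_pos.2 (by linarith)
  have hs' : (0 : ℝ) < √(h : ℝ) ^ k := by positivity
  have a1 := H g χ N h hg hχ hN h1 h2
  rw [Lf_eq hhN hX]
  have e1 : √(6 / Real.pi ^ 2 * (h : ℝ)) ^ k = √(6 / Real.pi ^ 2) ^ k * √(h : ℝ) ^ k := by
    rw [Real.sqrt_mul (by positivity), mul_pow]
  rw [e1] at a1
  have e2 : (∑ x ∈ Ico N (2 * N), W (fg g χ) x h ^ k) / (N * √(h : ℝ) ^ k) - gm k * √(6 / Real.pi ^ 2) ^ k =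
      ((∑ x ∈ Ico N (2 * N), W (fg g χ) x h ^ k) / N -
        gm k * (√(6 / Real.pi ^ 2) ^ k * √(h : ℝ) ^ k)) / √(h : ℝ) ^ k := by
    field_simp
  rw [e2, abs_div, abs_of_pos hs', div_le_iff₀ hs']
  refine a1.trans (le_of_eq ?_)
  rw [abs_div, abs_of_pos (by positivity : (0 : ℝ) < N * √(h : ℝ) ^ k)]
  field_simp

end Pool.Agent.Q299.L2
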