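import Pool.Agent.Q255.L2.StmG
import Pool.Agent.Q13.EP.REC
import Pool.Agent.Q152.QT.Final

/-! # Project L2 (helper255), job GLB: the norm of the coefficients -/

set_option autoImplicit false

namespace Pool.Agent.Q299.L2

open Finset Pool.Agent.Q255.L2
open Pool.Agent.Q152.QT (Bt at' Qk Sf gm mem_Sf prod_le prod_pos' at_abs)

theorem tPairs : Pool.Agent.Q152.QT.S_Pairs :=
  Pool.Agent.Q150.QT.t_Pairs
    (Pool.Agent.Q31.QT.t_Triv Pool.Agent.Q14.QT.t_Gcd Pool.Agent.Q63.QT.t_Wt)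
    (Pool.Agent.Q63.QT.t_Cnt Pool.Agent.Q14.QT.t_Gcd Pool.Agent.Q63.QT.t_Wt)
    Pool.Agent.Q63.QT.t_Odd

/-- the pairs `(x, t)` -/
noncomputable def PP (k N h : ℕ) : Finset (Σ _ : ℕ, Fin k → ℕ) :=
  (Ico N (2 * N)).sigma fun x => Bt k h x

theorem mem_Bt {k h x : ℕ} {t : Fin k → ℕ} : t ∈ Bt k h x ↔
    t ∈ (Fintype.piFinset fun _ : Fin k => Sf x h) ∧ ¬ IsSquare (∏ i, t i) := by
  unfold Bt
  rw [mem_filter]

theorem mem_PP {k N h : ℕ} {p : Σ _ : ℕ, Fin k → ℕ} : p ∈ PP k N h ↔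
    p.1 ∈ Ico N (2 * N) ∧ p.2 ∈ Bt k h p.1 := by
  unfold PP
  rw [mem_sigma]

theorem co_eq (g : ℕ → ℝ) (k N h n : ℕ) : co g k N h n =
    (∑ p ∈ (PP k N h).filter (fun p => ∏ i, p.2 i = n), at' g p.2) / (N * √(h : ℝ) ^ k) := by
  unfold co
  congr 1
  rw [sum_filter]
  unfold PP
  rw [sum_sigma]
  refine sum_congr rfl fun x _ => ?_
  rw [sum_filter]

theorem co_abs {g : ℕ → ℝ} (hg : ∀ n, g n = 1 ∨ g n = -1) (k N h n : ℕ) : |co g k N h n| ≤
    (∑ p ∈ PP k N h, if ∏ i, p.2 i = n then (1 : ℝ) else 0) / (N * √(h : ℝ) ^ k) := by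
  rw [co_eq, abs_div, abs_of_nonneg (by positivity : (0 : ℝ) ≤ N * √(h : ℝ) ^ k)]
  refine div_le_div_of_nonneg_right ?_ (by positivity)
  refine (abs_sum_le_sum_abs _ _).trans ?_
  rw [sum_filter]
  refine sum_le_sum fun p _ => ?_
  split_ifs
  · exact at_abs hg _
  · exact le_rfl

open Classical in
/-- is the product `r² s`? -/
noncomputable def Is {k : ℕ} (s : ℕ) (p : Σ _ : ℕ, Fin k → ℕ) : ℝ :=
  if ∃ r, 1 ≤ r ∧ ∏ i, p.2 i = r ^ 2 * s then 1 else 0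

theorem Is_nonneg {k : ℕ} (s : ℕ) (p : Σ _ : ℕ, Fin k → ℕ) : 0 ≤ Is s p := by
  unfold Is
  split_ifs <;> norm_num

theorem row {g : ℕ → ℝ} (hg : ∀ n, g n = 1 ∨ g n = -1) (k N h X s : ℕ) (hs : Squarefree s) :
    ∑ r ∈ Icc 1 X, |co g k N h (r ^ 2 * s)| ≤ (∑ p ∈ PP k N h, Is s p) / (N * √(h : ℝ) ^ k) := by
  classical
  refine (sum_le_sum fun r _ => co_abs hg k N h (r ^ 2 * s)).trans ?_
  rw [← sum_div]
  refine div_le_div_of_nonneg_right ?_ (by positivity)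
  rw [sum_comm]
  refine sum_le_sum fun p _ => ?_
  by_cases hp : ∃ r ∈ Icc 1 X, ∏ i, p.2 i = r ^ 2 * s
  · obtain ⟨r, hr, hpr⟩ := hp
    rw [sum_eq_single_of_mem r hr]
    · rw [if_pos hpr]
      unfold Is
      rw [if_pos ⟨r, (mem_Icc.1 hr).1, hpr⟩]
    · intro r' hr' hne
      rw [if_neg]
      intro hpr'
      apply hne
      have := Pool.Agent.Q13.EP.sq_part_inj (r := r') (r' := r) (s := s) (s' := s)
        (by have := mem_Icc.1 hr'; omega) (by have := mem_Icc.1 hr; omega) hs hs (hpr'.symm.trans hpr)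
      exact this.1
  · rw [sum_eq_zero]
    · exact Is_nonneg s p
    · intro r hr
      rw [if_neg]
      intro hpr
      exact hp ⟨r, hr, hpr⟩

theorem cols {k : ℕ} (X : ℕ) (p q : Σ _ : ℕ, Fin k → ℕ) :
    ∑ s ∈ (Icc 1 X).filter Squarefree, Is s p * Is s q ≤
      if IsSquare ((∏ i, p.2 i) * ∏ i, q.2 i) then (1 : ℝ) else 0 := by
  classical
  by_cases hp : ∃ s ∈ (Icc 1 X).filter Squarefree, (∃ r, 1 ≤ r ∧ ∏ i, p.2 i = r ^ 2 * s) ∧
      ∃ r, 1 ≤ r ∧ ∏ i, q.2 i = r ^ 2 * s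
  · obtain ⟨s, hs, ⟨r, hr, h1⟩, r', hr', h2⟩ := hp
    rw [sum_eq_single_of_mem s hs]
    · rw [if_pos]
      · unfold Is
        rw [if_pos ⟨r, hr, h1⟩, if_pos ⟨r', hr', h2⟩]
        norm_num
      · rw [h1, h2]
        exact ⟨r * r' * s, by ring⟩
    · intro s' hs' hne
      have : Is s' p = 0 := by
        unfold Is
        rw [if_neg]
        rintro ⟨r1, hr1, h3⟩
        apply hne
        exact (Pool.Agent.Q13.EP.sq_part_inj (by omega) (by omega) (mem_filter.1 hs').2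
          (mem_filter.1 hs).2 (h3.symm.trans h1)).2
      rw [this, zero_mul]
  · rw [sum_eq_zero]
    · split_ifs <;> norm_num
    · intro s hs
      unfold Is
      by_cases h1 : ∃ r, 1 ≤ r ∧ ∏ i, p.2 i = r ^ 2 * s
      · by_cases h2 : ∃ r, 1 ≤ r ∧ ∏ i, q.2 i = r ^ 2 * s
        · exact absurd ⟨s, hs, h1, h2⟩ hp
        · rw [if_neg h2, mul_zero]
      · rw [if_neg h1, zero_mul]

theorem pairs_eq (k N h : ℕ) : ∑ p ∈ PP k N h, ∑ q ∈ PP k N h,
    (if IsSquare ((∏ i, p.2 i) * ∏ i, q.2 i) then (1 : ℝ) else 0) =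
    ∑ x ∈ Ico N (2 * N), ∑ y ∈ Ico N (2 * N), (Qk k h x y : ℝ) := by
  classical
  unfold PP
  rw [sum_sigma]
  refine sum_congr rfl fun x _ => ?_
  simp only [sum_sigma]
  rw [sum_comm]
  refine sum_congr rfl fun y _ => ?_
  rw [← sum_product', ← sum_filter, sum_const, nsmul_eq_mul, mul_one]
  unfold Qk
  congr 2
  ext ⟨t, t'⟩
  simp only [mem_filter, mem_product, mem_Bt]
  tauto

theorem nn_le {g : ℕ → ℝ} (hg : ∀ n, g n = 1 ∨ g n = -1) (k N h X : ℕ) :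
    nn X (co g k N h) ≤ (∑ x ∈ Ico N (2 * N), ∑ y ∈ Ico N (2 * N), (Qk k h x y : ℝ)) /
      (N * √(h : ℝ) ^ k) ^ 2 := by
  classical
  unfold nn
  calc ∑ s ∈ (Icc 1 X).filter Squarefree, (∑ r ∈ Icc 1 X, |co g k N h (r ^ 2 * s)|) ^ 2
      ≤ ∑ s ∈ (Icc 1 X).filter Squarefree, ((∑ p ∈ PP k N h, Is s p) / (N * √(h : ℝ) ^ k)) ^ 2 := by
        refine sum_le_sum fun s hs => ?_
        exact pow_le_pow_left₀ (sum_nonneg fun _ _ => abs_nonneg _) (row hg k N h X s (mem_filter.1 hs).2) 2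
    _ = (∑ p ∈ PP k N h, ∑ q ∈ PP k N h, ∑ s ∈ (Icc 1 X).filter Squarefree, Is s p * Is s q) /
        (N * √(h : ℝ) ^ k) ^ 2 := by
        simp only [div_pow]
        rw [← sum_div]
        congr 1
        have e1 : ∀ s : ℕ, (∑ p ∈ PP k N h, Is s p) ^ 2 =
            ∑ p ∈ PP k N h, ∑ q ∈ PP k N h, Is s p * Is s q := by
          intro s
          rw [sq, sum_mul_sum]
        simp only [e1]
        rw [sum_comm]
        refine sum_congr rfl fun p _ => ?_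
        rw [sum_comm]
    _ ≤ (∑ p ∈ PP k N h, ∑ q ∈ PP k N h,
        (if IsSquare ((∏ i, p.2 i) * ∏ i, q.2 i) then (1 : ℝ) else 0)) / (N * √(h : ℝ) ^ k) ^ 2 := by
        refine div_le_div_of_nonneg_right ?_ (by positivity)
        exact sum_le_sum fun p _ => sum_le_sum fun q _ => cols X p q
    _ = _ := by rw [pairs_eq]

/-- the norm of the coefficients -/
theorem t_GLB : S_GLB := by
  intro k ε hε
  obtain ⟨c, C, hc, hC, H⟩ := tPairs k ε hε
  refine ⟨c, C, hc, hC.le, fun g N h X hg hN hh => ⟨?_, ?_⟩⟩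
  · intro n hn
    rw [co_eq, filter_eq_empty_iff.2, sum_empty, zero_div]
    intro p hp hpn
    obtain ⟨hp1, hp2⟩ := mem_PP.1 hp
    have := prod_le hp1 hh (mem_Bt.1 hp2).1
    omega
  · intro h1 h2
    have hN0 : (0 : ℝ) < N := by exact_mod_cast hN
    have hN1 : (1 : ℝ) ≤ N := by exact_mod_cast hN
    have hh1R : (1 : ℝ) ≤ h := le_trans (Real.one_le_rpow hN1 hε.le) h1
    refine (nn_le hg k N h X).trans ?_
    have hsq : (√(h : ℝ) ^ k) ^ 2 = (h : ℝ) ^ k := by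
      rw [← pow_mul, mul_comm k 2, pow_mul, Real.sq_sqrt (by linarith)]
    rw [mul_pow, hsq, div_le_iff₀ (by positivity)]
    refine (H N h hN h1 h2).trans (le_of_eq (by ring))

end Pool.Agent.Q299.L2
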