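import Pool.Agent.Q299.L2.GlA

/-! # Project L2 (helper255), job GLC: all moments almost surely -/

set_option autoImplicit false

namespace Pool.Agent.Q299.L2

open Filter Topology MeasureTheory Finset
open Pool.Agent.Q255.L2 Pool.Agent.Q255.IC Pool.Agent.Q255.IR Pool.Agent.Q255.EP
open Pool.Agent.Q152.QT (gm)
open Pool.Agent.Q163.GC (W)

theorem cm_sgn (ω : ℕ → Bool) : Sgn (cm ω) := by
  refine ⟨fun m n hm hn => Pool.Agent.Q13.EP.cm_mul ω (by omega) (by omega), fun n _ => ?_⟩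
  have h := Pool.Agent.Q13.EP.abs_cm ω n
  rcases (abs_eq (by norm_num : (0 : ℝ) ≤ 1)).1 h with h1 | h1
  · exact Or.inl h1
  · exact Or.inr h1

open Classical in
/-- the coefficients of the level `J` -/
noncomputable def WW (g : ℕ → ℝ) (k J : ℕ) : Finset (ℕ → ℝ) :=
  ((Icc 1 (2 ^ J) ×ˢ Icc 1 (2 ^ J)).filter (fun p => p.2 ≤ p.1 ∧ (3 * p.1) ^ k ≤ 2 ^ J)).image
    fun p => co g k p.1 p.2

theorem WW_card (g : ℕ → ℝ) (k J : ℕ) : ((WW g k J).card : ℝ) ≤ Real.exp (2 * ((J : ℝ) + 1)) := by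
  classical
  have h1 : (WW g k J).card ≤ 2 ^ J * 2 ^ J := by
    unfold WW
    refine card_image_le.trans ((card_filter_le _ _).trans ?_)
    rw [card_product, Nat.card_Icc]
    simp
  have h2 : ((WW g k J).card : ℝ) ≤ (2 : ℝ) ^ J * 2 ^ J := by exact_mod_cast h1
  refine h2.trans ?_
  have h3 : (2 : ℝ) ≤ Real.exp 1 := by
    have := Real.add_one_le_exp (1 : ℝ)
    linarith
  have h4 : (2 : ℝ) ^ J ≤ Real.exp J := by
    calc (2 : ℝ) ^ J ≤ (Real.exp 1) ^ J := pow_le_pow_left₀ (by norm_num) h3 _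
      _ = Real.exp J := by
          rw [← Real.exp_nat_mul, mul_one]
  calc (2 : ℝ) ^ J * 2 ^ J ≤ Real.exp J * Real.exp J := mul_le_mul h4 h4 (by positivity) (Real.exp_pos _).le
    _ = Real.exp (2 * J) := by rw [← Real.exp_add]; congr 1; ring
    _ ≤ _ := Real.exp_le_exp.2 (by linarith)

/-- all moments for all windows -/
theorem glc (hE : S_ENG2) (hA : S_GLA) (hB : S_GLB) : S_GLC := by
  classical
  intro ν _ hD g hg
  rw [ae_all_iff]
  intro k
  have hW0 : ∀ J, ∀ w ∈ WW g k J, ∀ m, 2 ^ J < m → w m = 0 := by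
    intro J w hw m hm
    obtain ⟨c, C, _, _, H⟩ := hB k 1 one_pos
    unfold WW at hw
    obtain ⟨⟨N, h⟩, hp, rfl⟩ := mem_image.1 hw
    simp only [mem_filter, mem_product, mem_Icc] at hp
    exact (H g N h 0 hg hp.1.1.1 hp.2.1).1 m (by omega)
  filter_upwards [hE ν 0 le_rfl zero_le_one (by simpa using hD) (WW g k) 2 hW0 (WW_card g k)] with ω hω
  intro ε hε
  obtain ⟨c1, C1, hc1, hC1, H1⟩ := hB k ε hε
  obtain ⟨c2, C2, hc2, hC2, H2⟩ := hA k ε hε
  set ε' : ℝ := c1 / (4 * ((k : ℝ) + 1)) with hε'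
  have hk1 : (0 : ℝ) < (k : ℝ) + 1 := by positivity
  have hε'0 : 0 < ε' := by positivity
  obtain ⟨C3, H3⟩ := hω ε' hε'0
  set K : ℝ := (2 * (3 : ℝ) ^ (k + 1)) ^ ε' with hK
  have hK0 : 0 < K := by positivity
  refine ⟨min c2 (c1 / 4), C2 + |C3| * K * √C1, lt_min hc2 (by positivity), by positivity, ?_⟩
  intro N h hN h1 h2
  have hN0 : (0 : ℝ) < N := by exact_mod_cast hN
  have hN1 : (1 : ℝ) ≤ N := by exact_mod_cast hN
  have hh1R : (1 : ℝ) ≤ h := le_trans (Real.one_le_rpow hN1 hε.le) h1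
  have hh1 : 1 ≤ h := by exact_mod_cast hh1R
  have hhN : h ≤ N := by
    have : (h : ℝ) ≤ N := h2.trans (by
      calc (N : ℝ) ^ (1 - ε) ≤ (N : ℝ) ^ (1 : ℝ) := Real.rpow_le_rpow_of_exponent_le hN1 (by linarith)
        _ = N := Real.rpow_one _)
    exact_mod_cast this
  set M : ℕ := (3 * N) ^ (k + 1) with hM
  have hM1 : 1 < M := by
    have : 3 * N ≤ M := Nat.le_self_pow (by omega) _
    omega
  set J : ℕ := Nat.clog 2 M with hJ
  have hJ1 : M ≤ 2 ^ J := Nat.le_pow_clog (by norm_num) M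
  have hJ2 : 2 ^ J ≤ 2 * M := by
    have h3 := Nat.pow_pred_clog_lt_self (by norm_num : 1 < 2) hM1
    have h4 : 0 < J := Nat.clog_pos (by norm_num) hM1
    have h5 : 2 ^ J = 2 * 2 ^ (J - 1) := by
      rw [← pow_succ']
      congr 1
      omega
    rw [h5]
    exact Nat.mul_le_mul_left 2 h3.le
  have hX : (3 * N) ^ k ≤ 2 ^ J := (Nat.pow_le_pow_right (by omega) (Nat.le_succ k)).trans hJ1
  have hNJ : N ≤ 2 ^ J := by
    have : 3 * N ≤ M := Nat.le_self_pow (by omega) _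
    omega
  have hmem : co g k N h ∈ WW g k J := by
    unfold WW
    refine mem_image.2 ⟨(N, h), ?_, rfl⟩
    simp only [mem_filter, mem_product, mem_Icc]
    exact ⟨⟨⟨hN, hNJ⟩, hh1, by omega⟩, hhN, hX⟩
  have a1 := H3 J (co g k N h) hmem
  have a2 := (H1 g N h (2 ^ J) hg hN hhN).2 h1 h2
  have a3 := H2 g (cm ω) N h (2 ^ J) hg (cm_sgn ω) hN h1 h2 hX
  have b1 : √(nn (2 ^ J) (co g k N h)) ≤ √C1 * (N : ℝ) ^ (-(c1 / 2)) := by
    refine (Real.sqrt_le_sqrt a2).trans (le_of_eq ?_)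
    rw [Real.sqrt_mul hC1]
    congr 1
    rw [Real.sqrt_eq_rpow, ← Real.rpow_mul hN0.le]
    congr 1
    ring
  have b2 : (2 : ℝ) ^ ((0 + ε') * (J : ℝ)) ≤ K * (N : ℝ) ^ (c1 / 4) := by
    have e1 : (2 : ℝ) ^ ((0 + ε') * (J : ℝ)) = ((2 : ℝ) ^ J) ^ ε' := by
      rw [← Real.rpow_natCast, ← Real.rpow_mul (by norm_num)]
      congr 1
      ring
    have e2 : (2 : ℝ) ^ J ≤ 2 * (3 : ℝ) ^ (k + 1) * (N : ℝ) ^ (k + 1) := by
      have : ((2 ^ J : ℕ) : ℝ) ≤ ((2 * M : ℕ) : ℝ) := by exact_mod_cast hJ2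
      rw [hM] at this
      push_cast at this
      rw [mul_pow] at this
      linarith
    rw [e1]
    refine (Real.rpow_le_rpow (by positivity) e2 hε'0.le).trans (le_of_eq ?_)
    rw [Real.mul_rpow (by positivity) (by positivity), ← Real.rpow_natCast (N : ℝ) (k + 1), ← Real.rpow_mul hN0.le]
    congr 2
    rw [hε']
    push_cast
    field_simp
  have b3 : |∑ n ∈ Icc 1 (2 ^ J), co g k N h n * cm ω n| ≤ |C3| * K * √C1 * (N : ℝ) ^ (-(c1 / 4)) := by
    refine a1.trans ?_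
    calc C3 * (2 : ℝ) ^ ((0 + ε') * (J : ℝ)) * √(nn (2 ^ J) (co g k N h))
        ≤ |C3| * (2 : ℝ) ^ ((0 + ε') * (J : ℝ)) * √(nn (2 ^ J) (co g k N h)) := by
          refine mul_le_mul_of_nonneg_right ?_ (Real.sqrt_nonneg _)
          exact mul_le_mul_of_nonneg_right (le_abs_self C3) (by positivity)
      _ ≤ |C3| * (K * (N : ℝ) ^ (c1 / 4)) * (√C1 * (N : ℝ) ^ (-(c1 / 2))) := by
          refine mul_le_mul ?_ b1 (Real.sqrt_nonneg _) (by positivity)
          exact mul_le_mul_of_nonneg_left b2 (abs_nonneg _)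
      _ = |C3| * K * √C1 * ((N : ℝ) ^ (c1 / 4) * (N : ℝ) ^ (-(c1 / 2))) := by ring
      _ = _ := by
          rw [← Real.rpow_add hN0]
          congr 2
          ring
  have d1 : (N : ℝ) ^ (-c2) ≤ (N : ℝ) ^ (-(min c2 (c1 / 4))) :=
    Real.rpow_le_rpow_of_exponent_le hN1 (by linarith [min_le_left c2 (c1 / 4)])
  have d2 : (N : ℝ) ^ (-(c1 / 4)) ≤ (N : ℝ) ^ (-(min c2 (c1 / 4))) :=
    Real.rpow_le_rpow_of_exponent_le hN1 (by linarith [min_le_right c2 (c1 / 4)])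
  have d3 := mul_le_mul_of_nonneg_left d1 hC2
  have d4 := mul_le_mul_of_nonneg_left d2 (by positivity : 0 ≤ |C3| * K * √C1)
  rw [add_mul]
  linarith

end Pool.Agent.Q299.L2
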