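import Pool.Agent.Q190.EP.Eng2
import Pool.Agent.Q255.L2.Stm

/-! # Project L2 (helper255), job LARGE: the bad words -/

set_option autoImplicit false

namespace Pool.Agent.Q299.L2

open Filter Topology MeasureTheory
open Pool.Agent.Q255.L2 Pool.Agent.Q255.IC Pool.Agent.Q255.IR Pool.Agent.Q255.EP
open Pool.Agent.Q190.EP (NN blk NN_mono NN_le TT TF TF_zero TF_card TT_sub abs_trunc)
open scoped ENNReal

/-- one function and one index -/
theorem one_bad (hAZ : S_AZ2) (hYB : S_YB) {X k0 a b n : ℕ} {κ : ℕ → ℝ} (hκ : ∀ k, 0 ≤ κ k) {w : ℕ → ℝ}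
    (hX : 1 ≤ X) (hw : ∀ m, X < m → w m = 0) {L : ℝ} (hL : 0 ≤ L) (hbn : b ≤ n) (hk0 : k0 ≤ a) :
    ∃ U : Finset (Fin n → Bool), (U.card : ℝ) ≤ 2 * 2 ^ n * Real.exp (-L) ∧
      ∀ ω : ℕ → Bool, ω ∉ cyl U →
        |∑ j ∈ Finset.Ico a b, sg ω j *
            trunc (√(2 * Yq ω κ X k0 (j - k0) (dil j w))) (Sq ω j X (dil j w))| ≤
          √(2 * L * ∑ j ∈ Finset.Ico a b, 2 * Yq ω κ X k0 (j - k0) (dil j w)) := by
  classical
  set Y : ℕ → (ℕ → Bool) → ℝ := fun j ω => Yq ω κ X k0 (j - k0) (dil j w) with hY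
  have hY0 : ∀ j ω, 0 ≤ Y j ω := fun j ω => (hYB ω κ X k0 (j - k0) (dil j w) hX hκ).1
  set De : (ℕ → Bool) → ℝ := fun ω => ∑ j ∈ Finset.Ico a b, 2 * Y j ω with hDe
  have hDe0 : ∀ ω, 0 ≤ De ω := fun ω => Finset.sum_nonneg fun j _ => by
    have := hY0 j ω
    linarith
  set tr : ℕ → (ℕ → Bool) → ℝ := fun j ω => trunc (√(2 * Y j ω)) (Sq ω j X (dil j w)) with htr
  have htr2 : ∀ j ω, tr j ω ^ 2 ≤ 2 * Y j ω := by
    intro j ω
    have h1 : |tr j ω| ≤ √(2 * Y j ω) := abs_trunc (Real.sqrt_nonneg _)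
    have h2 := pow_le_pow_left₀ (abs_nonneg _) h1 2
    rw [sq_abs, Real.sq_sqrt (by have := hY0 j ω; linarith)] at h2
    exact h2
  set c : ℕ → (ℕ → Bool) → ℝ := fun j ω => if j ∈ Finset.Ico a b then tr j ω / √(De ω) else 0 with hc
  have hYd : ∀ j (ω ω' : ℕ → Bool), (∀ i < k0, ω i = ω' i) → Y j ω = Y j ω' :=
    fun j ω ω' h => (hYB ω κ X k0 (j - k0) (dil j w) hX hκ).2.1 ω' h
  obtain ⟨U, hU1, hU2⟩ := hAZ n a b c L hbn hL (by
    intro ω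
    have e1 : ∀ j ∈ Finset.Ico a b, c j ω ^ 2 ≤ 2 * Y j ω / De ω := by
      intro j hj
      rw [hc]
      simp only
      rw [if_pos hj, div_pow, Real.sq_sqrt (hDe0 ω)]
      exact div_le_div_of_nonneg_right (htr2 j ω) (hDe0 ω)
    refine (Finset.sum_le_sum e1).trans ?_
    rw [← Finset.sum_div]
    exact div_self_le_one _) (by
    intro j ω ω' h
    rw [hc]
    simp only
    by_cases hj : j ∈ Finset.Ico a b
    · rw [if_pos hj, if_pos hj]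
      have hja := (Finset.mem_Ico.1 hj).1
      have h0 : ∀ i < k0, ω i = ω' i := fun i hi => h i (by omega)
      have e1 : De ω = De ω' := by
        rw [hDe]
        exact Finset.sum_congr rfl fun j' _ => by rw [hYd j' ω ω' h0]
      have e2 : Sq ω j X (dil j w) = Sq ω' j X (dil j w) := by
        have hz : ∀ m, X < m → dil j w m = 0 := by
          intro m hm
          unfold dil
          exact hw _ (lt_of_lt_of_le hm (Nat.le_mul_of_pos_left m (pr_prime j).pos))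
        exact (Pool.Agent.Q13.EP.t_REC ω κ X (dil j w) hX hz).2.2.2.2 j ω' h
      rw [htr]
      simp only
      rw [e1, hYd j ω ω' h0, e2]
    · rw [if_neg hj, if_neg hj])
  refine ⟨U, hU1, fun ω hω => ?_⟩
  have h1 : |∑ j ∈ Finset.Ico a b, sg ω j * c j ω| ≤ √(2 * L) := by
    by_contra hcon
    push Not at hcon
    exact hω (hU2 hcon)
  change |∑ j ∈ Finset.Ico a b, sg ω j * tr j ω| ≤ √(2 * L * De ω)
  rcases (hDe0 ω).eq_or_lt with h0 | h0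
  · have h2 : ∀ j ∈ Finset.Ico a b, sg ω j * tr j ω = 0 := by
      intro j hj
      have h3 : 2 * Y j ω = 0 := by
        have h4 := (Finset.sum_eq_zero_iff_of_nonneg (f := fun j => 2 * Y j ω) (s := Finset.Ico a b)
          (fun j _ => by have := hY0 j ω; linarith)).1 h0.symm
        exact h4 j hj
      have h4 := htr2 j ω
      rw [h3] at h4
      have h5 : tr j ω = 0 := by
        have := sq_nonneg (tr j ω)
        exact pow_eq_zero_iff (two_ne_zero) |>.1 (le_antisymm h4 this)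
      rw [h5, mul_zero]
    rw [Finset.sum_eq_zero h2, abs_zero]
    exact Real.sqrt_nonneg _
  · have hs : 0 < √(De ω) := Real.sqrt_pos.2 h0
    have e1 : ∑ j ∈ Finset.Ico a b, sg ω j * tr j ω = √(De ω) * ∑ j ∈ Finset.Ico a b, sg ω j * c j ω := by
      rw [Finset.mul_sum]
      refine Finset.sum_congr rfl fun j hj => ?_
      rw [hc]
      simp only
      rw [if_pos hj]
      field_simp
    rw [e1, abs_mul, abs_of_pos hs, mul_comm (2 * L) (De ω), Real.sqrt_mul h0.le]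
    exact mul_le_mul_of_nonneg_left h1 hs.le

theorem bad2 (hAZ : S_AZ2) (hYB : S_YB) (J : ℕ) (W : Finset (ℕ → ℝ))
    (hW : ∀ w ∈ W, ∀ m, 2 ^ J < m → w m = 0) (κ : ℕ → ℝ) (hκ : ∀ k, 0 ≤ κ k) (k0 : ℕ) (L : ℕ → ℝ)
    (hL : ∀ i, 0 ≤ L i) (i : ℕ) (hi : i < J) (hk0 : k0 ≤ NN i) : ∃ U : Finset (Fin (NN (i + 1)) → Bool),
      (U.card : ℝ) ≤ 2 * W.card * ((2 : ℝ) ^ J + 1) ^ 2 * 2 ^ (NN (i + 1)) * Real.exp (-L i) ∧
      ∀ ω : ℕ → Bool, ω ∉ cyl U → ∀ w ∈ TT W, ∀ k, NN i ≤ k → k ≤ NN (i + 1) →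
        |∑ j ∈ Finset.Ico (NN i) k, sg ω j *
            trunc (√(2 * Yq ω κ (2 ^ J) k0 (j - k0) (dil j w))) (Sq ω j (2 ^ J) (dil j w))| ≤
          √(2 * L i * ∑ j ∈ Finset.Ico (NN i) k, 2 * Yq ω κ (2 ^ J) k0 (j - k0) (dil j w)) := by
  classical
  have h1 : ∀ p : (ℕ → ℝ) × ℕ, p ∈ TF W (2 ^ J) ×ˢ Finset.Icc (NN i) (NN (i + 1)) →
      ∃ U : Finset (Fin (NN (i + 1)) → Bool), (U.card : ℝ) ≤ 2 * 2 ^ (NN (i + 1)) * Real.exp (-L i) ∧
      ∀ ω : ℕ → Bool, ω ∉ cyl U →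
        |∑ j ∈ Finset.Ico (NN i) p.2, sg ω j *
            trunc (√(2 * Yq ω κ (2 ^ J) k0 (j - k0) (dil j p.1))) (Sq ω j (2 ^ J) (dil j p.1))| ≤
          √(2 * L i * ∑ j ∈ Finset.Ico (NN i) p.2, 2 * Yq ω κ (2 ^ J) k0 (j - k0) (dil j p.1)) := by
    rintro ⟨w, k⟩ hp
    obtain ⟨hw, hk⟩ := Finset.mem_product.1 hp
    exact one_bad hAZ hYB hκ Nat.one_le_two_pow (fun m hm => TF_zero hW hw hm) (hL i) (Finset.mem_Icc.1 hk).2 hk0
  choose! U hU1 hU2 using h1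
  refine ⟨(TF W (2 ^ J) ×ˢ Finset.Icc (NN i) (NN (i + 1))).biUnion U, ?_, ?_⟩
  · have h2 : (((TF W (2 ^ J) ×ˢ Finset.Icc (NN i) (NN (i + 1))).biUnion U).card : ℝ) ≤
        ∑ p ∈ TF W (2 ^ J) ×ˢ Finset.Icc (NN i) (NN (i + 1)), ((U p).card : ℝ) := by
      exact_mod_cast Finset.card_biUnion_le
    refine h2.trans ((Finset.sum_le_sum hU1).trans ?_)
    rw [Finset.sum_const, Finset.card_product, nsmul_eq_mul, Nat.card_Icc]
    have h3 : ((TF W (2 ^ J)).card : ℝ) ≤ W.card * ((2 : ℝ) ^ J + 1) := by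
      exact_mod_cast TF_card W (2 ^ J)
    have h4 : ((NN (i + 1) + 1 - NN i : ℕ) : ℝ) ≤ (2 : ℝ) ^ J + 1 := by
      have h5 : NN (i + 1) + 1 - NN i ≤ 2 ^ J + 1 := by
        have h6 := NN_le (i + 1)
        have h7 : 2 ^ (i + 1) ≤ 2 ^ J := Nat.pow_le_pow_right (by norm_num) hi
        omega
      exact_mod_cast h5
    have h5 : (0 : ℝ) ≤ 2 * 2 ^ (NN (i + 1)) * Real.exp (-L i) := by positivity
    calc (((TF W (2 ^ J)).card * (NN (i + 1) + 1 - NN i) : ℕ) : ℝ) * (2 * 2 ^ (NN (i + 1)) * Real.exp (-L i))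
        ≤ ((W.card * ((2 : ℝ) ^ J + 1)) * ((2 : ℝ) ^ J + 1)) * (2 * 2 ^ (NN (i + 1)) * Real.exp (-L i)) := by
          refine mul_le_mul_of_nonneg_right ?_ h5
          rw [Nat.cast_mul]
          exact mul_le_mul h3 h4 (Nat.cast_nonneg _) (by positivity)
      _ = _ := by ring
  · intro ω hω w hw k hk1 hk2
    have hp : (w, k) ∈ TF W (2 ^ J) ×ˢ Finset.Icc (NN i) (NN (i + 1)) :=
      Finset.mem_product.2 ⟨TT_sub hW hw, Finset.mem_Icc.2 ⟨hk1, hk2⟩⟩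
    refine hU2 (w, k) hp ω ?_
    intro h3
    apply hω
    unfold cyl at h3 ⊢
    rw [Set.mem_ofPred_eq] at h3 ⊢
    exact Finset.mem_biUnion.2 ⟨(w, k), hp, h3⟩

end Pool.Agent.Q299.L2
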