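import Pool.Agent.Q299.L2.Lg1

/-! # Project L2 (helper255), job LARGE: almost surely the good events hold eventually -/

set_option autoImplicit false

namespace Pool.Agent.Q299.L2

open Filter Topology MeasureTheory
open Pool.Agent.Q255.L2 Pool.Agent.Q255.IC Pool.Agent.Q255.IR Pool.Agent.Q255.EP
open Pool.Agent.Q190.EP (NN blk NN_mono NN_le LL KK LL_pos KK_pos TT D_bound K_bound K_exp dpi_use)
open scoped ENNReal

/-- almost surely the good events hold for large `J` -/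
theorem prob2 (hAZ : S_AZ2) (hYB : S_YB) (ν : Measure (ℕ → Bool)) [IsProbabilityMeasure ν] {δ ε : ℝ} (hδ : 0 ≤ δ)
    (hε : 0 < ε) (hD : ∀ ε : ℝ, 0 < ε → ∀ᶠ x : ℕ in atTop, D ν (Nat.primeCounting x) ≤ (x : ℝ) ^ (δ + ε))
    (W : ℕ → Finset (ℕ → ℝ)) (A : ℝ) (hW0 : ∀ J, ∀ w ∈ W J, ∀ m, 2 ^ J < m → w m = 0)
    (hWc : ∀ J, ((W J).card : ℝ) ≤ Real.exp (A * ((J : ℝ) + 1))) (e : ℕ → ℕ) :
    ∀ᵐ ω ∂ν, ∀ᶠ J : ℕ in atTop,
      Good2 ω (2 ^ J) (fun k => KK δ ε J (blk k)) (NN (e J)) (fun i => NN (e J + i)) (fun i => LL δ ε J (e J + i))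
        (J - e J) (TT (W J)) := by
  classical
  have hb : ∀ J i : ℕ, ∃ U : Finset (Fin (NN (i + 1)) → Bool), (i < J →
      (U.card : ℝ) ≤ 2 * (W J).card * ((2 : ℝ) ^ J + 1) ^ 2 * 2 ^ (NN (i + 1)) * Real.exp (-LL δ ε J i)) ∧
      (i < J → e J ≤ i → ∀ ω : ℕ → Bool, ω ∉ cyl U → ∀ w ∈ TT (W J), ∀ k, NN i ≤ k → k ≤ NN (i + 1) →
        |∑ j ∈ Finset.Ico (NN i) k, sg ω j *
            trunc (√(2 * Yq ω (fun k => KK δ ε J (blk k)) (2 ^ J) (NN (e J)) (j - NN (e J)) (dil j w)))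
              (Sq ω j (2 ^ J) (dil j w))| ≤
          √(2 * LL δ ε J i * ∑ j ∈ Finset.Ico (NN i) k,
            2 * Yq ω (fun k => KK δ ε J (blk k)) (2 ^ J) (NN (e J)) (j - NN (e J)) (dil j w))) := by
    intro J i
    by_cases hi : i < J ∧ e J ≤ i
    · obtain ⟨U, h1, h2⟩ := bad2 hAZ hYB J (W J) (hW0 J) (fun k => KK δ ε J (blk k))
        (fun k => (KK_pos hε δ J (blk k)).le) (NN (e J)) (LL δ ε J)
        (fun i => (LL_pos δ ε J i).le) i hi.1 (NN_mono hi.2)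
      exact ⟨U, fun _ => h1, fun _ _ => h2⟩
    · refine ⟨∅, fun _ => ?_, fun h h' => absurd ⟨h, h'⟩ hi⟩
      simp only [Finset.card_empty, Nat.cast_zero]
      positivity
  choose U hU1 hU2 using hb
  set B : ℕ → Set (ℕ → Bool) := fun J => ⋃ i ∈ Finset.range J, cyl (U J i) with hB
  have hgood : ∀ J ω, ω ∉ B J →
      Good2 ω (2 ^ J) (fun k => KK δ ε J (blk k)) (NN (e J)) (fun i => NN (e J + i)) (fun i => LL δ ε J (e J + i))
        (J - e J) (TT (W J)) := by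
    intro J ω hω w hw i hi k hk1 hk2
    have hiJ : e J + i < J := by omega
    refine hU2 J (e J + i) hiJ (by omega) ω ?_ w hw k hk1 hk2
    intro h
    apply hω
    rw [hB]
    simp only [Set.mem_iUnion]
    exact ⟨e J + i, Finset.mem_range.2 hiJ, h⟩
  obtain ⟨CD, hCD0, hCD⟩ := D_bound ν hδ hD hε
  obtain ⟨J0, hJ0⟩ := K_bound A ε hε
  set q : ℝ := (2 : ℝ) ^ (-(ε / 2)) with hq
  have hq0 : 0 < q := by positivity
  have hq1 : q < 1 := Real.rpow_lt_one_of_one_lt_of_neg (by norm_num) (by linarith)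
  have hgeo : ∀ J : ℕ, ∑ i ∈ Finset.range J, q ^ (i + 1) ≤ (1 - q)⁻¹ := by
    intro J
    calc ∑ i ∈ Finset.range J, q ^ (i + 1) ≤ ∑ i ∈ Finset.range J, q ^ i :=
          Finset.sum_le_sum fun i _ => pow_le_pow_of_le_one hq0.le hq1.le (Nat.le_succ i)
      _ ≤ ∑' i, q ^ i := (summable_geometric_of_lt_one hq0.le hq1).sum_le_tsum _ fun i _ => by positivity
      _ = (1 - q)⁻¹ := tsum_geometric_of_lt_one hq0.le hq1
  have hcyl : ∀ J i, J0 ≤ J → i < J → ν.real (cyl (U J i)) ≤ CD * ((J : ℝ) + 1) ^ (-(1 + ε)) * q ^ (i + 1) := by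
    intro J i hJ hi
    have hJ1 : (0 : ℝ) < (J : ℝ) + 1 := by positivity
    have h1 := dpi_use ν (NN (i + 1)) (U J i) _ (LL δ ε J i) (hU1 J i hi)
      (K_exp (hJ0 J hJ) hδ hε i (hWc J) (Nat.cast_nonneg _))
    have h2 := h1.trans (hCD (i + 1))
    have h3 : LL δ ε J i / 2 = (2 : ℝ) ^ (((i : ℝ) + 1) * (δ + ε)) * ((J : ℝ) + 1) ^ (1 + ε) := by
      unfold LL
      ring
    have h4 : 0 < LL δ ε J i / 2 := by
      have := LL_pos δ ε J i
      linarith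
    have h5 : (CD * ((J : ℝ) + 1) ^ (-(1 + ε)) * q ^ (i + 1)) * (LL δ ε J i / 2) =
        CD * (2 : ℝ) ^ (((i + 1 : ℕ) : ℝ) * (δ + ε / 2)) := by
      have e1 : ((J : ℝ) + 1) ^ (-(1 + ε)) * ((J : ℝ) + 1) ^ (1 + ε) = 1 := by
        rw [← Real.rpow_add hJ1]
        simp
      have e2 : q ^ (i + 1) * (2 : ℝ) ^ (((i : ℝ) + 1) * (δ + ε)) = (2 : ℝ) ^ (((i + 1 : ℕ) : ℝ) * (δ + ε / 2)) := by
        rw [hq, ← Real.rpow_natCast, ← Real.rpow_mul (by norm_num), ← Real.rpow_add (by norm_num)]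
        congr 1
        push_cast
        ring
      rw [h3, ← e2]
      calc CD * ((J : ℝ) + 1) ^ (-(1 + ε)) * q ^ (i + 1) *
            ((2 : ℝ) ^ (((i : ℝ) + 1) * (δ + ε)) * ((J : ℝ) + 1) ^ (1 + ε))
          = CD * (q ^ (i + 1) * (2 : ℝ) ^ (((i : ℝ) + 1) * (δ + ε))) *
            (((J : ℝ) + 1) ^ (-(1 + ε)) * ((J : ℝ) + 1) ^ (1 + ε)) := by ring
        _ = _ := by rw [e1, mul_one]
    rw [← h5] at h2
    exact le_of_mul_le_mul_right h2 h4
  set C : ℝ := CD * (1 - q)⁻¹ + ((J0 : ℝ) + 1) ^ (1 + ε) with hC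
  have h1q : 0 < (1 - q)⁻¹ := inv_pos.2 (by linarith)
  have hreal : ∀ J, ν.real (B J) ≤ C * ((J : ℝ) + 1) ^ (-(1 + ε)) := by
    intro J
    have hJ1 : (0 : ℝ) < (J : ℝ) + 1 := by positivity
    rcases Nat.lt_or_ge J J0 with h | h
    · have h1 : ν.real (B J) ≤ 1 := measureReal_le_one
      have h2 : 1 ≤ ((J0 : ℝ) + 1) ^ (1 + ε) * ((J : ℝ) + 1) ^ (-(1 + ε)) := by
        rw [Real.rpow_neg hJ1.le, ← div_eq_mul_inv, one_le_div (by positivity)]
        refine Real.rpow_le_rpow hJ1.le ?_ (by positivity)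
        have : (J : ℝ) ≤ J0 := by exact_mod_cast h.le
        linarith
      have h3 : 0 ≤ CD * (1 - q)⁻¹ * ((J : ℝ) + 1) ^ (-(1 + ε)) := by positivity
      rw [hC, add_mul]
      linarith
    · have h1 : ν.real (B J) ≤ ∑ i ∈ Finset.range J, ν.real (cyl (U J i)) := measureReal_biUnion_finset_le _ _
      have h2 : ∑ i ∈ Finset.range J, ν.real (cyl (U J i)) ≤
          ∑ i ∈ Finset.range J, CD * ((J : ℝ) + 1) ^ (-(1 + ε)) * q ^ (i + 1) :=
        Finset.sum_le_sum fun i hi => hcyl J i h (Finset.mem_range.1 hi)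
      rw [← Finset.mul_sum] at h2
      have h3 : CD * ((J : ℝ) + 1) ^ (-(1 + ε)) * ∑ i ∈ Finset.range J, q ^ (i + 1) ≤
          CD * ((J : ℝ) + 1) ^ (-(1 + ε)) * (1 - q)⁻¹ :=
        mul_le_mul_of_nonneg_left (hgeo J) (by positivity)
      have h4 : 0 ≤ ((J0 : ℝ) + 1) ^ (1 + ε) * ((J : ℝ) + 1) ^ (-(1 + ε)) := by positivity
      rw [hC, add_mul]
      calc ν.real (B J) ≤ CD * ((J : ℝ) + 1) ^ (-(1 + ε)) * (1 - q)⁻¹ := h1.trans (h2.trans h3)
        _ = CD * (1 - q)⁻¹ * ((J : ℝ) + 1) ^ (-(1 + ε)) := by ring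
        _ ≤ _ := by linarith
  have hC0 : 0 ≤ C := by positivity
  have hsum : Summable fun J : ℕ => C * ((J : ℝ) + 1) ^ (-(1 + ε)) := by
    refine Summable.mul_left C ?_
    have h1 : Summable fun n : ℕ => ((n : ℝ)) ^ (-(1 + ε)) := by
      rw [Real.summable_nat_rpow]
      linarith
    have h2 := (summable_nat_add_iff 1).2 h1
    refine h2.congr fun J => ?_
    push_cast
    rfl
  have hfin : (∑' J, ν (B J)) ≠ ∞ := by
    have h1 : ∑' J, ν (B J) ≤ ∑' J : ℕ, ENNReal.ofReal (C * ((J : ℝ) + 1) ^ (-(1 + ε))) := by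
      refine ENNReal.tsum_le_tsum fun J => ?_
      rw [← ofReal_measureReal (measure_ne_top ν (B J))]
      exact ENNReal.ofReal_le_ofReal (hreal J)
    exact ne_top_of_le_ne_top hsum.tsum_ofReal_ne_top h1
  filter_upwards [ae_eventually_notMem hfin] with ω hω
  filter_upwards [hω] with J hJ
  exact hgood J ω hJ

end Pool.Agent.Q299.L2
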